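import Mathlib
import Pool.Agent.Helper89.KN.Spec

/-! MP_2af9b5_pr, part DR1: windows. -/

open Set

namespace KN

namespace H76DR1

lemma mem_NCell {h : ℝ} {u v : ℕ} {z : ℂ} : z ∈ NCell h (u, v) ↔
    (u : ℝ) * h ≤ z.re ∧ z.re ≤ ((u : ℝ) + 1) * h ∧ (v : ℝ) * h ≤ z.im ∧
      z.im ≤ ((v : ℝ) + 1) * h := by
  simp [NCell, Cell]

lemma dist_le_sqrt {z w : ℂ} {a b : ℝ} (h1 : |z.re - w.re| ≤ a) (h2 : |z.im - w.im| ≤ b) :
    dist z w ≤ √(a ^ 2 + b ^ 2) := by
  rw [Complex.dist_eq_re_im]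
  apply Real.sqrt_le_sqrt
  have e1 : (z.re - w.re) ^ 2 ≤ a ^ 2 := sq_le_sq' (by linarith [neg_abs_le (z.re - w.re)])
    (by linarith [le_abs_self (z.re - w.re)])
  have e2 : (z.im - w.im) ^ 2 ≤ b ^ 2 := sq_le_sq' (by linarith [neg_abs_le (z.im - w.im)])
    (by linarith [le_abs_self (z.im - w.im)])
  linarith

variable {m : ℕ} (x : Fin m → ℂ) (h : ℝ) (A : Set (Fin m))

/-- points in the cells `c`, `c'` have the same class -/
def Sm (c c' : ℕ × ℕ) : Prop := ∀ i j, x i ∈ NCell h c → x j ∈ NCell h c' → (i ∈ A ↔ j ∈ A)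

/-- occupied -/
def Occ (c : ℕ × ℕ) : Prop := ∃ i, x i ∈ NCell h c

variable {x h A}

lemma Sm.symm {c c' : ℕ × ℕ} (H : Sm x h A c c') : Sm x h A c' c :=
  fun i j hi hj => (H j i hj hi).symm

lemma Sm.trans {c c' c'' : ℕ × ℕ} (H : Sm x h A c c') (ho : Occ x h c')
    (H' : Sm x h A c' c'') : Sm x h A c c'' := by
  intro i j hi hj
  obtain ⟨k, hk⟩ := ho
  exact (H i k hi hk).trans (H' k j hk hj)

section

variable {r : ℝ} (hh : 0 < h) (hr : √5 * h ≤ r)
  (hA : ∀ i j, dist (x i) (x j) ≤ r → (i ∈ A ↔ j ∈ A))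

include hh hr hA

lemma sm_of_near {u v u' v' : ℕ} (h1 : u' = u ∨ u' = u + 1) (h2 : v' = v ∨ v' = v + 1)
    (h3 : u' = u ∨ v' = v) : Sm x h A (u, v) (u', v') := by
  intro i j hi hj
  rw [mem_NCell] at hi hj
  apply hA
  obtain ⟨a1, a2, a3, a4⟩ := hi
  obtain ⟨b1, b2, b3, b4⟩ := hj
  have h5 : √5 * h = √((2 * h) ^ 2 + h ^ 2) := by
    have : (2 * h) ^ 2 + h ^ 2 = 5 * h ^ 2 := by ring
    rw [this, Real.sqrt_mul (by norm_num), Real.sqrt_sq hh.le]
  have h5' : √5 * h = √(h ^ 2 + (2 * h) ^ 2) := by rw [h5, add_comm]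
  refine le_trans ?_ hr
  rcases h3 with h3 | h3
  · rw [h5']
    subst h3
    refine dist_le_sqrt ?_ ?_
    · rw [abs_le]; constructor <;> nlinarith
    · rcases h2 with h2 | h2 <;> subst h2 <;> push_cast at * <;> rw [abs_le] <;>
        constructor <;> nlinarith
  · rw [h5]
    subst h3
    refine dist_le_sqrt ?_ ?_
    · rcases h1 with h1 | h1 <;> subst h1 <;> push_cast at * <;> rw [abs_le] <;>
        constructor <;> nlinarith
    · rw [abs_le]; constructor <;> nlinarith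

lemma row_le {a v M : ℕ} (hf : ∀ u, a ≤ u → u < a + M → Occ x h (u, v)) {u : ℕ} (hu : a ≤ u) :
    ∀ u', u ≤ u' → u' < a + M → Sm x h A (u, v) (u', v) := by
  intro u' huu'
  induction u', huu' using Nat.le_induction with
  | base => intro _; exact sm_of_near hh hr hA (Or.inl rfl) (Or.inl rfl) (Or.inl rfl)
  | succ w hw ih =>
    intro hlt
    exact (ih (by omega)).trans (hf w (by omega) (by omega))
      (sm_of_near hh hr hA (Or.inr rfl) (Or.inl rfl) (Or.inr rfl))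

lemma col_le {b u M : ℕ} (hf : ∀ v, b ≤ v → v < b + M → Occ x h (u, v)) {v : ℕ} (hv : b ≤ v) :
    ∀ v', v ≤ v' → v' < b + M → Sm x h A (u, v) (u, v') := by
  intro v' hvv'
  induction v', hvv' using Nat.le_induction with
  | base => intro _; exact sm_of_near hh hr hA (Or.inl rfl) (Or.inl rfl) (Or.inl rfl)
  | succ w hw ih =>
    intro hlt
    exact (ih (by omega)).trans (hf w (by omega) (by omega))
      (sm_of_near hh hr hA (Or.inl rfl) (Or.inr rfl) (Or.inl rfl))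

lemma row_sm {a v M : ℕ} (hf : ∀ u, a ≤ u → u < a + M → Occ x h (u, v)) {u u' : ℕ}
    (hu : a ≤ u) (hu2 : u < a + M) (hu' : a ≤ u') (hu2' : u' < a + M) :
    Sm x h A (u, v) (u', v) := by
  rcases le_total u u' with H | H
  · exact row_le hh hr hA hf hu u' H hu2'
  · exact (row_le hh hr hA hf hu' u H hu2).symm

lemma col_sm {b u M : ℕ} (hf : ∀ v, b ≤ v → v < b + M → Occ x h (u, v)) {v v' : ℕ}
    (hv : b ≤ v) (hv2 : v < b + M) (hv' : b ≤ v') (hv2' : v' < b + M) :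
    Sm x h A (u, v) (u, v') := by
  rcases le_total v v' with H | H
  · exact col_le hh hr hA hf hv v' H hv2'
  · exact (col_le hh hr hA hf hv' v H hv2).symm

end

/-- full row of the window with lower left cell `(a, _)` -/
def FR (x : Fin m → ℂ) (h : ℝ) (M a v : ℕ) : Prop := ∀ u, a ≤ u → u < a + M → Occ x h (u, v)

/-- full column -/
def FC (x : Fin m → ℂ) (h : ℝ) (M b u : ℕ) : Prop := ∀ v, b ≤ v → v < b + M → Occ x h (u, v)

section

variable {mc M q : ℕ} (hM : M = 2 * q + 1)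
  (hE : ∀ a b : ℕ, a + M ≤ mc → b + M ≤ mc →
      {c : ℕ × ℕ | c ∈ WinCells M a b ∧ ∀ i : Fin m, x i ∉ NCell h c}.ncard ≤ q)

include hE

lemma bad_rows {a b : ℕ} (ha : a + M ≤ mc) (hb : b + M ≤ mc) (N : Finset ℕ)
    (hN : ∀ v ∈ N, b ≤ v ∧ v < b + M ∧ ¬ FR x h M a v) : N.card ≤ q := by
  classical
  have hfin : ({c : ℕ × ℕ | c ∈ WinCells M a b ∧ ∀ i : Fin m, x i ∉ NCell h c}).Finite :=
    (WinCells M a b).finite_toSet.subset fun c hc => hc.1
  have hch : ∀ v ∈ N, ∃ u, a ≤ u ∧ u < a + M ∧ ¬ Occ x h (u, v) := by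
    intro v hv
    have := (hN v hv).2.2
    unfold FR at this
    push Not at this
    obtain ⟨u, h1, h2, h3⟩ := this
    exact ⟨u, h1, h2, h3⟩
  choose! f hf1 hf2 hf3 using hch
  refine le_trans ?_ (hE a b ha hb)
  rw [← Set.ncard_coe_finset]
  refine Set.ncard_le_ncard_of_injOn (fun v => (f v, v)) ?_ ?_ hfin
  · intro v hv
    have hv' := hN v hv
    refine ⟨?_, ?_⟩
    · unfold WinCells
      rw [Finset.mem_product, Finset.mem_Ico, Finset.mem_Ico]
      exact ⟨⟨hf1 v hv, hf2 v hv⟩, ⟨hv'.1, hv'.2.1⟩⟩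
    · intro i hi
      exact hf3 v hv ⟨i, hi⟩
  · intro v _ v' _ hvv
    exact (Prod.mk.inj hvv).2

lemma bad_cols {a b : ℕ} (ha : a + M ≤ mc) (hb : b + M ≤ mc) (N : Finset ℕ)
    (hN : ∀ u ∈ N, a ≤ u ∧ u < a + M ∧ ¬ FC x h M b u) : N.card ≤ q := by
  classical
  have hfin : ({c : ℕ × ℕ | c ∈ WinCells M a b ∧ ∀ i : Fin m, x i ∉ NCell h c}).Finite :=
    (WinCells M a b).finite_toSet.subset fun c hc => hc.1
  have hch : ∀ u ∈ N, ∃ v, b ≤ v ∧ v < b + M ∧ ¬ Occ x h (u, v) := by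
    intro u hu
    have := (hN u hu).2.2
    unfold FC at this
    push Not at this
    obtain ⟨v, h1, h2, h3⟩ := this
    exact ⟨v, h1, h2, h3⟩
  choose! f hf1 hf2 hf3 using hch
  refine le_trans ?_ (hE a b ha hb)
  rw [← Set.ncard_coe_finset]
  refine Set.ncard_le_ncard_of_injOn (fun u => (u, f u)) ?_ ?_ hfin
  · intro u hu
    have hu' := hN u hu
    refine ⟨?_, ?_⟩
    · unfold WinCells
      rw [Finset.mem_product, Finset.mem_Ico, Finset.mem_Ico]
      exact ⟨⟨hu'.1, hu'.2.1⟩, ⟨hf1 u hu, hf2 u hu⟩⟩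
    · intro i hi
      exact hf3 u hu ⟨i, hi⟩
  · intro u _ u' _ huu
    exact (Prod.mk.inj huu).1

include hM

lemma exists_row {a a' b : ℕ} (ha : a + M ≤ mc) (ha' : a' + M ≤ mc) (hb : b + M ≤ mc) :
    ∃ v, b ≤ v ∧ v < b + M ∧ FR x h M a v ∧ FR x h M a' v := by
  classical
  by_contra hcon
  push Not at hcon
  have h1 := bad_rows hE ha hb ((Finset.Ico b (b + M)).filter (fun v => ¬ FR x h M a v))
    (fun v hv => by
      rw [Finset.mem_filter, Finset.mem_Ico] at hv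
      exact ⟨hv.1.1, hv.1.2, hv.2⟩)
  have h2 := bad_rows hE ha' hb ((Finset.Ico b (b + M)).filter (fun v => ¬ FR x h M a' v))
    (fun v hv => by
      rw [Finset.mem_filter, Finset.mem_Ico] at hv
      exact ⟨hv.1.1, hv.1.2, hv.2⟩)
  have h3 : Finset.Ico b (b + M) ⊆ ((Finset.Ico b (b + M)).filter (fun v => ¬ FR x h M a v)) ∪
      ((Finset.Ico b (b + M)).filter (fun v => ¬ FR x h M a' v)) := by
    intro v hv
    rw [Finset.mem_union, Finset.mem_filter, Finset.mem_filter]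
    by_cases hf : FR x h M a v
    · right
      rw [Finset.mem_Ico] at hv
      exact ⟨Finset.mem_Ico.mpr hv, hcon v hv.1 hv.2 hf⟩
    · left; exact ⟨hv, hf⟩
  have h4 := (Finset.card_le_card h3).trans (Finset.card_union_le _ _)
  rw [Nat.card_Ico] at h4
  omega

lemma exists_col {a b b' : ℕ} (ha : a + M ≤ mc) (hb : b + M ≤ mc) (hb' : b' + M ≤ mc) :
    ∃ u, a ≤ u ∧ u < a + M ∧ FC x h M b u ∧ FC x h M b' u := by
  classical
  by_contra hcon
  push Not at hcon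
  have h1 := bad_cols hE ha hb ((Finset.Ico a (a + M)).filter (fun v => ¬ FC x h M b v))
    (fun v hv => by
      rw [Finset.mem_filter, Finset.mem_Ico] at hv
      exact ⟨hv.1.1, hv.1.2, hv.2⟩)
  have h2 := bad_cols hE ha hb' ((Finset.Ico a (a + M)).filter (fun v => ¬ FC x h M b' v))
    (fun v hv => by
      rw [Finset.mem_filter, Finset.mem_Ico] at hv
      exact ⟨hv.1.1, hv.1.2, hv.2⟩)
  have h3 : Finset.Ico a (a + M) ⊆ ((Finset.Ico a (a + M)).filter (fun v => ¬ FC x h M b v)) ∪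
      ((Finset.Ico a (a + M)).filter (fun v => ¬ FC x h M b' v)) := by
    intro v hv
    rw [Finset.mem_union, Finset.mem_filter, Finset.mem_filter]
    by_cases hf : FC x h M b v
    · right
      rw [Finset.mem_Ico] at hv
      exact ⟨Finset.mem_Ico.mpr hv, hcon v hv.1 hv.2 hf⟩
    · left; exact ⟨hv, hf⟩
  have h4 := (Finset.card_le_card h3).trans (Finset.card_union_le _ _)
  rw [Nat.card_Ico] at h4
  omega

end

/-- cells in full rows of the window -/
def InR (x : Fin m → ℂ) (h : ℝ) (M a b : ℕ) (c : ℕ × ℕ) : Prop :=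
  a ≤ c.1 ∧ c.1 < a + M ∧ b ≤ c.2 ∧ c.2 < b + M ∧ FR x h M a c.2

lemma InR.occ {M a b : ℕ} {c : ℕ × ℕ} (H : InR x h M a b c) : Occ x h c := by
  obtain ⟨u, v⟩ := c
  exact H.2.2.2.2 u H.1 H.2.1

end H76DR1

open H76DR1

theorem dr1_thm : S_DR1 := by
  classical
  intro ℓ h r mc M q m x A hh hℓ hM hMc hr hx hE hA
  have hMpos : 0 < M := by omega
  have R1 : ∀ {a b : ℕ}, a + M ≤ mc → b + M ≤ mc → ∀ c c', InR x h M a b c → InR x h M a b c' →
      Sm x h A c c' := by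
    intro a b ha hb c c' hc hc'
    obtain ⟨u, v⟩ := c
    obtain ⟨u', v'⟩ := c'
    obtain ⟨h1, h2, h3, h4, h5⟩ := hc
    obtain ⟨k1, k2, k3, k4, k5⟩ := hc'
    simp only at h1 h2 h3 h4 h5 k1 k2 k3 k4 k5
    obtain ⟨u0, hu0, hu0', hfc, -⟩ := exists_col hM hE ha hb hb
    exact ((row_sm hh hr hA h5 h1 h2 hu0 hu0').trans (hfc v h3 h4)
      (col_sm hh hr hA hfc h3 h4 k3 k4)).trans (hfc v' k3 k4)
      (row_sm hh hr hA k5 hu0 hu0' k1 k2)
  have R2 : ∀ {a b : ℕ}, a + 1 + M ≤ mc → b + M ≤ mc → ∃ c c', InR x h M a b c ∧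
      InR x h M (a + 1) b c' ∧ Sm x h A c c' := by
    intro a b ha hb
    obtain ⟨v, hv, hv', hf, hf'⟩ := exists_row (a := a) (a' := a + 1) (b := b) hM hE (by omega) ha hb
    refine ⟨(a, v), (a + 1, v), ⟨le_rfl, by simp only; omega, hv, hv', hf⟩,
      ⟨le_rfl, by simp only; omega, hv, hv', hf'⟩, ?_⟩
    exact sm_of_near hh hr hA (Or.inr rfl) (Or.inl rfl) (Or.inr rfl)
  have R3 : ∀ {a b : ℕ}, a + M ≤ mc → b + 1 + M ≤ mc → ∃ c c', InR x h M a b c ∧
      InR x h M a (b + 1) c' ∧ Sm x h A c c' := by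
    intro a b ha hb
    obtain ⟨u, hu, hu', hf, hf'⟩ := exists_col (a := a) (b := b) (b' := b + 1) hM hE ha (by omega) hb
    obtain ⟨v, hv, hv', hr1, -⟩ := exists_row (a := a) (a' := a) (b := b) hM hE ha ha (by omega)
    obtain ⟨w, hw, hw', hr2, -⟩ := exists_row (a := a) (a' := a) (b := b + 1) hM hE ha ha hb
    have hlong : ∀ t, b ≤ t → t < b + (M + 1) → Occ x h (u, t) := by
      intro t ht ht'
      by_cases hcase : t < b + M
      · exact hf t ht hcase
      · exact hf' t (by omega) (by omega)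
    exact ⟨(u, v), (u, w), ⟨hu, hu', hv, hv', hr1⟩, ⟨hu, hu', hw, hw', hr2⟩,
      col_sm hh hr hA hlong hv (by omega) (by omega) (by omega)⟩
  -- all windows
  have G0 : ∀ a, a + M ≤ mc → ∀ c c', InR x h M 0 0 c → InR x h M a 0 c' → Sm x h A c c' := by
    intro a
    induction a with
    | zero => intro ha c c' hc hc'; exact R1 (by omega) (by omega) c c' hc hc'
    | succ a ih =>
      intro ha c c' hc hc'
      obtain ⟨d, d', hd, hd', hdd⟩ := R2 (a := a) (b := 0) ha (by omega)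
      exact ((ih (by omega) c d hc hd).trans hd.occ hdd).trans hd'.occ
        (R1 ha (by omega) d' c' hd' hc')
  have G : ∀ b, b + M ≤ mc → ∀ a, a + M ≤ mc → ∀ c c', InR x h M 0 0 c → InR x h M a b c' →
      Sm x h A c c' := by
    intro b
    induction b with
    | zero => intro _ a ha; exact G0 a ha
    | succ b ih =>
      intro hb a ha c c' hc hc'
      obtain ⟨d, d', hd, hd', hdd⟩ := R3 (a := a) (b := b) ha hb
      exact ((ih (by omega) a ha c d hc hd).trans hd.occ hdd).trans hd'.occ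
        (R1 ha hb d' c' hd' hc')
  -- the label
  obtain ⟨v0, hv0, hv0', hf0, -⟩ := exists_row (a := 0) (a' := 0) (b := 0) hM hE (by omega)
    (by omega) (by omega)
  have hc0 : InR x h M 0 0 (0, v0) := ⟨le_rfl, by simp only; omega, hv0, hv0', hf0⟩
  obtain ⟨i0, hi0⟩ := hc0.occ
  have hlab : ∀ a b, a + M ≤ mc → b + M ≤ mc → ∀ c, InR x h M a b c → ∀ j, x j ∈ NCell h c →
      (j ∈ A ↔ i0 ∈ A) := fun a b ha hb c hc j hj => (G b hb a ha _ c hc0 hc i0 j hi0 hj).symm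
  -- index of a coordinate
  have hidx : ∀ t : ℝ, 0 ≤ t → t ≤ mc * h → ∃ u : ℕ, u < mc ∧ (u : ℝ) * h ≤ t ∧
      t ≤ ((u : ℝ) + 1) * h := by
    intro t ht ht'
    by_cases hcase : ⌊t / h⌋₊ < mc
    · refine ⟨⌊t / h⌋₊, hcase, ?_, ?_⟩
      · have := Nat.floor_le (div_nonneg ht hh.le)
        rwa [le_div_iff₀ hh] at this
      · have := (Nat.lt_floor_add_one (t / h)).le
        rwa [div_le_iff₀ hh] at this
    · refine ⟨mc - 1, by omega, ?_, ?_⟩
      · have h1 : (mc : ℝ) ≤ t / h := by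
          have h2 := Nat.floor_le (div_nonneg ht hh.le)
          have h3 : (mc : ℝ) ≤ ⌊t / h⌋₊ := by exact_mod_cast not_lt.mp hcase
          linarith
        rw [le_div_iff₀ hh] at h1
        have h4 : ((mc - 1 : ℕ) : ℝ) ≤ mc := by exact_mod_cast Nat.sub_le _ _
        nlinarith
      · have h4 : ((mc - 1 : ℕ) : ℝ) + 1 = mc := by
          rw [Nat.cast_sub (by omega)]; push_cast; ring
        rw [h4]; exact ht'
  have hwin : ∀ u, u < mc → ∃ a, a + M ≤ mc ∧ a ≤ u ∧ u < a + M := by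
    intro u hu
    rcases le_total u (mc - M) with H | H
    · exact ⟨u, by omega, le_rfl, by omega⟩
    · exact ⟨mc - M, by omega, H, by omega⟩
  have hsq : √2 * M * h = √((M * h) ^ 2 + (M * h) ^ 2) := by
    rw [← two_mul, Real.sqrt_mul (by norm_num), Real.sqrt_sq (by positivity)]
    ring
  -- distances within a window
  have hdw : ∀ (a b u v u' v' : ℕ) (z w : ℂ), a ≤ u → u < a + M → b ≤ v → v < b + M → a ≤ u' →
      u' < a + M → b ≤ v' → v' < b + M → z ∈ NCell h (u, v) → w ∈ NCell h (u', v') →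
      dist z w ≤ √2 * M * h := by
    intro a b u v u' v' z w h1 h2 h3 h4 h5 h6 h7 h8 hz hw
    rw [mem_NCell] at hz hw
    obtain ⟨a1, a2, a3, a4⟩ := hz
    obtain ⟨b1, b2, b3, b4⟩ := hw
    rw [hsq]
    have c1 : (a : ℝ) ≤ u := by exact_mod_cast h1
    have c2 : (u : ℝ) + 1 ≤ a + M := by exact_mod_cast h2
    have c3 : (b : ℝ) ≤ v := by exact_mod_cast h3
    have c4 : (v : ℝ) + 1 ≤ b + M := by exact_mod_cast h4
    have c5 : (a : ℝ) ≤ u' := by exact_mod_cast h5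
    have c6 : (u' : ℝ) + 1 ≤ a + M := by exact_mod_cast h6
    have c7 : (b : ℝ) ≤ v' := by exact_mod_cast h7
    have c8 : (v' : ℝ) + 1 ≤ b + M := by exact_mod_cast h8
    have e1 := mul_le_mul_of_nonneg_right c1 hh.le
    have e2 := mul_le_mul_of_nonneg_right c2 hh.le
    have e3 := mul_le_mul_of_nonneg_right c3 hh.le
    have e4 := mul_le_mul_of_nonneg_right c4 hh.le
    have e5 := mul_le_mul_of_nonneg_right c5 hh.le
    have e6 := mul_le_mul_of_nonneg_right c6 hh.le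
    have e7 := mul_le_mul_of_nonneg_right c7 hh.le
    have e8 := mul_le_mul_of_nonneg_right c8 hh.le
    refine dist_le_sqrt ?_ ?_
    · rw [abs_le]; constructor <;> linarith
    · rw [abs_le]; constructor <;> linarith
  have main : ∀ i, ¬ (i ∈ A ↔ i0 ∈ A) → NearEmpty x h (√2 * M * h) mc i ∧
      ∃ j, (j ∈ A ↔ i0 ∈ A) ∧ dist (x i) (x j) ≤ √2 * M * h := by
    intro i hi
    obtain ⟨g1, g2, g3, g4⟩ := hx i
    rw [hℓ] at g2 g4
    obtain ⟨u, hu, hu1, hu2⟩ := hidx _ g1 g2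
    obtain ⟨v, hv, hv1, hv2⟩ := hidx _ g3 g4
    have hcell : x i ∈ NCell h (u, v) := mem_NCell.mpr ⟨hu1, hu2, hv1, hv2⟩
    obtain ⟨a, ha, hau, hau'⟩ := hwin u hu
    obtain ⟨b, hb, hbv, hbv'⟩ := hwin v hv
    have hnf : ¬ FR x h M a v := by
      intro hf
      exact hi (hlab a b ha hb (u, v) ⟨hau, hau', hbv, hbv', hf⟩ i hcell)
    unfold FR at hnf
    push Not at hnf
    obtain ⟨u', hu1', hu2', hno⟩ := hnf
    refine ⟨⟨(u', v), by simp only; omega, by simp only; omega, fun l hl => hno ⟨l, hl⟩,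
      fun z hz => hdw a b u' v u v z (x i) hu1' hu2' hbv hbv' hau hau' hbv hbv' hz hcell⟩, ?_⟩
    obtain ⟨w, hw, hw', hfw, -⟩ := exists_row (a := a) (a' := a) (b := b) hM hE ha ha hb
    have hin : InR x h M a b (a, w) := ⟨le_rfl, by simp only; omega, hw, hw', hfw⟩
    obtain ⟨j, hj⟩ := hin.occ
    exact ⟨j, hlab a b ha hb _ hin j hj,
      hdw a b u v a w (x i) (x j) hau hau' hbv hbv' le_rfl (by omega) hw hw' hcell hj⟩
  by_cases hs : i0 ∈ A
  · right
    intro i hi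
    obtain ⟨h1, j, hj, hd⟩ := main i (fun H => hi (H.mpr hs))
    exact ⟨h1, j, hj.mpr hs, hd⟩
  · left
    intro i hi
    obtain ⟨h1, j, hj, hd⟩ := main i (fun H => hs (H.mp hi))
    exact ⟨h1, j, fun H => hs (hj.mp H), hd⟩

end KN
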